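import Pool.Agent.Y920.QB.Lin

set_option autoImplicit false

/-!
Project QB (owner helper920), job COAT: maximal proper ample subspaces are hyperplanes.
-/

namespace Pool.Agent.Y388.QB

open Module Pool.Agent.Y920.QB

theorem UE_mono {V K : Type} [AddCommGroup V] [Module (ZMod 2) V] [AddCommGroup K]
    [Module (ZMod 2) K] {U : Submodule (ZMod 2) V} (β : U →ₗ[ZMod 2] V →ₗ[ZMod 2] K)
    {E E' : Submodule (ZMod 2) K} (h : E ≤ E') : UE β E ≤ UE β E' := fun _ hu x => h (hu x)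

theorem t_COAT : S_COAT := by
  intro hAMP hSUM V K _ _ _ _ _ _ U β t T hβ hStd C hC
  obtain ⟨ht, hT, hbig⟩ := hStd
  obtain ⟨hCA, hCt, hCmax⟩ := hC
  have hamp := (hAMP V K U β t).2
  obtain ⟨x, hx⟩ : ∃ x, x ∉ C := by
    by_contra hcon
    push Not at hcon
    exact hCt ((Submodule.eq_top_iff').2 hcon)
  obtain ⟨κ, hκx, hκ⟩ := Submodule.exists_le_ker_of_notMem hx
  have hκ0 : κ ≠ 0 := by
    rintro rfl
    exact hκx rfl
  refine ⟨κ, hκ0, ?_⟩
  by_contra hne
  obtain ⟨y, hy, hyC⟩ : ∃ y ∈ LinearMap.ker κ, y ∉ C := by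
    by_contra hcon
    push Not at hcon
    exact hne (le_antisymm hκ hcon)
  obtain ⟨κ', hκ'y, hκ'⟩ := Submodule.exists_le_ker_of_notMem hyC
  have hy' : κ y = 0 := hy
  have hκ'0 : κ' ≠ 0 := by
    rintro rfl
    exact hκ'y rfl
  have hs0 : κ + κ' ≠ 0 := by
    intro h
    apply hκ'y
    have h1 := LinearMap.congr_fun h y
    rw [LinearMap.add_apply, hy', zero_add] at h1
    exact h1
  have hs : C ≤ LinearMap.ker (κ + κ') := by
    intro z hz
    have h1 : κ z = 0 := hκ hz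
    have h2 : κ' z = 0 := hκ' hz
    rw [LinearMap.mem_ker, LinearMap.add_apply, h1, h2, add_zero]
  -- the ample parts of the kernels
  have key : ∀ φ : Dual (ZMod 2) K, φ ≠ 0 → C ≤ LinearMap.ker φ →
      ee β (LinearMap.ker φ) ≤ ee β C + t * finrank (ZMod 2) K := by
    intro φ hφ0 hφ
    obtain ⟨h1, h2, h3⟩ := hamp (LinearMap.ker φ)
    have h4 : C ≤ SS β t (LinearMap.ker φ) := le_sSup ⟨hφ, hCA⟩
    have h5 : SS β t (LinearMap.ker φ) ≠ ⊤ := by
      intro h
      rw [h, top_le_iff, LinearMap.ker_eq_top] at h2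
      exact hφ0 h2
    rw [hCmax _ h1 h4 h5] at h3
    exact h3
  have h1 := key κ hκ0 hκ
  have h2 := key κ' hκ'0 hκ'
  have h3 := key (κ + κ') hs0 hs
  have hUV : finrank (ZMod 2) U ≤ finrank (ZMod 2) V := Submodule.finrank_le U
  have hCC : ee β C ≤ ee β (LinearMap.ker κ ⊓ LinearMap.ker κ') :=
    Submodule.finrank_mono (UE_mono β (le_inf hκ hκ'))
  have htr : 3 * t * finrank (ZMod 2) K = 3 * (t * finrank (ZMod 2) K) := by ring
  rw [htr] at hbig
  have h4 := hSUM V K U β T ((finrank (ZMod 2) V - finrank (ZMod 2) U) +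
    t * finrank (ZMod 2) K) hβ hT (by omega) κ κ' (by omega)
  have h5 := Submodule.finrank_sup_add_finrank_inf_eq (UE β (LinearMap.ker κ))
    (UE β (LinearMap.ker (κ + κ')))
  have h6 : ee β C ≤ finrank (ZMod 2)
      ↥(UE β (LinearMap.ker κ) ⊓ UE β (LinearMap.ker (κ + κ'))) :=
    Submodule.finrank_mono (le_inf (UE_mono β hκ) (UE_mono β hs))
  have h7 := hT C (lt_top_iff_ne_top.2 hCt)
  have h8 : ee β ⊤ ≤ finrank (ZMod 2) U := Submodule.finrank_le _
  have e1 : ee β (LinearMap.ker κ) = finrank (ZMod 2) (UE β (LinearMap.ker κ)) := rfl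
  have e2 : ee β (LinearMap.ker (κ + κ')) = finrank (ZMod 2) (UE β (LinearMap.ker (κ + κ'))) := rfl
  rw [e1] at h1
  rw [e2] at h3
  omega

end Pool.Agent.Y388.QB
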