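import Pool.Agent.Y920.QB.Lin

set_option autoImplicit false

/-!
Project QB (owner helper920), job DIST: realization and distributivity.
-/

namespace Pool.Agent.Y388.QB

open Module Pool.Agent.Y920.QB

section

variable {V K : Type} [AddCommGroup V] [Module (ZMod 2) V] [AddCommGroup K] [Module (ZMod 2) K]

theorem add_self {W : Type} [AddCommGroup W] [Module (ZMod 2) W] (x : W) : x + x = 0 := by
  rw [← two_smul (ZMod 2) x]
  have : (2 : ZMod 2) = 0 := rfl
  rw [this, zero_smul]

theorem finrank_split {A B : Type} [AddCommGroup A] [Module (ZMod 2) A] [Finite A]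
    [AddCommGroup B] [Module (ZMod 2) B] (f : A →ₗ[ZMod 2] B) (S : Submodule (ZMod 2) A) :
    finrank (ZMod 2) S = finrank (ZMod 2) (S.map f) +
      finrank (ZMod 2) ↥(S ⊓ LinearMap.ker f) := by
  have h1 := LinearMap.finrank_range_add_finrank_ker (f.domRestrict S)
  rw [LinearMap.range_domRestrict, LinearMap.ker_domRestrict] at h1
  have h2 : finrank (ZMod 2) ↥(S ⊓ LinearMap.ker f) =
      finrank (ZMod 2) ((LinearMap.ker f).submoduleOf S) := by
    rw [← Submodule.finrank_map_subtype_eq S ((LinearMap.ker f).submoduleOf S)]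
    unfold Submodule.submoduleOf
    rw [Submodule.map_comap_subtype]
  rw [h2]
  exact h1.symm

/-- the subspace where all the values of `κ ∘ β w` on `D` vanish -/
def BK {U : Submodule (ZMod 2) V} (β : U →ₗ[ZMod 2] V →ₗ[ZMod 2] K) (M : Submodule (ZMod 2) K)
    (D : Submodule (ZMod 2) V) (κ : Dual (ZMod 2) K) : Submodule (ZMod 2) U :=
  UE β M ⊓ D.dualAnnihilator.comap (β.compr₂ κ)

variable [Finite V] [Finite K] {U : Submodule (ZMod 2) V}
  (β : U →ₗ[ZMod 2] V →ₗ[ZMod 2] K)

omit [Finite K] in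
theorem finrank_BK (M : Submodule (ZMod 2) K) (D : Submodule (ZMod 2) V)
    (κ : Dual (ZMod 2) K) : finrank (ZMod 2) (BK β M D κ) + finrank (ZMod 2) D ≤
      finrank (ZMod 2) V + ee β (M ⊓ LinearMap.ker κ) := by
  have h1 := finrank_split (β.compr₂ κ) (BK β M D κ)
  have h2 : finrank (ZMod 2) ((BK β M D κ).map (β.compr₂ κ)) ≤
      finrank (ZMod 2) D.dualAnnihilator := by
    apply Submodule.finrank_mono
    rw [Submodule.map_le_iff_le_comap]
    exact inf_le_right
  have h3 : BK β M D κ ⊓ LinearMap.ker (β.compr₂ κ) ≤ UE β (M ⊓ LinearMap.ker κ) := by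
    intro w hw x
    rw [Submodule.mem_inf, LinearMap.mem_ker] at hw
    refine ⟨hw.1.1 x, ?_⟩
    have h4 := LinearMap.congr_fun hw.2 x
    rw [LinearMap.compr₂_apply, LinearMap.zero_apply] at h4
    exact h4
  have h4 := Submodule.finrank_mono h3
  have h5 := Subspace.finrank_add_finrank_dualAnnihilator_eq D
  unfold ee
  omega

/-- a generic vector of `U_M` -/
theorem claim {t : ℕ} (ht : 3 * finrank (ZMod 2) K + 1 ≤ t) {M : Submodule (ZMod 2) K}
    (hM : Amp β t M) (u y : U) : ∃ w ∈ UE β M, ∀ m ∈ M, ∃ d : V, β u d = 0 ∧ β y d = 0 ∧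
      β w d = m := by
  classical
  set D : Submodule (ZMod 2) V := LinearMap.ker (β u) ⊓ LinearMap.ker (β y) with hD
  have hDr : finrank (ZMod 2) V ≤ finrank (ZMod 2) D + 2 * finrank (ZMod 2) K := by
    have h1 := LinearMap.finrank_range_add_finrank_ker ((β u).prod (β y))
    have h2 : LinearMap.ker ((β u).prod (β y)) = D := LinearMap.ker_prod _ _
    have h3 := Submodule.finrank_le (LinearMap.range ((β u).prod (β y)))
    rw [Module.finrank_prod] at h3
    rw [h2] at h1
    omega
  -- it is enough to avoid the subspaces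
  have hex : ∃ w ∈ UE β M, ∀ κ : Dual (ZMod 2) K, ¬ M ≤ LinearMap.ker κ → w ∉ BK β M D κ := by
    by_contra hcon
    push Not at hcon
    have : Finite (Dual (ZMod 2) K) := Module.finite_of_finite (ZMod 2)
    have : Fintype (Dual (ZMod 2) K) := Fintype.ofFinite _
    have : Fintype U := Fintype.ofFinite _
    have h1 : (Finset.univ.filter fun w : U => w ∈ UE β M) ⊆
        (Finset.univ.filter fun κ : Dual (ZMod 2) K => ¬ M ≤ LinearMap.ker κ).biUnion
          fun κ => Finset.univ.filter fun w : U => w ∈ BK β M D κ := by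
      intro w hw
      rw [Finset.mem_filter] at hw
      obtain ⟨κ, hκ, hwκ⟩ := hcon w hw.2
      rw [Finset.mem_biUnion]
      exact ⟨κ, Finset.mem_filter.2 ⟨Finset.mem_univ _, hκ⟩,
        Finset.mem_filter.2 ⟨Finset.mem_univ _, hwκ⟩⟩
    have hcard : ∀ S : Submodule (ZMod 2) U,
        (Finset.univ.filter fun w : U => w ∈ S).card = 2 ^ finrank (ZMod 2) S := by
      intro S
      have h2 : Nat.card S = 2 ^ finrank (ZMod 2) S := by
        rw [Module.natCard_eq_pow_finrank (K := ZMod 2), Nat.card_zmod]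
      rw [← h2, Nat.card_eq_fintype_card, Fintype.card_subtype]
    have h2 := (Finset.card_le_card h1).trans Finset.card_biUnion_le
    rw [hcard] at h2
    have h3 : ∀ κ ∈ Finset.univ.filter fun κ : Dual (ZMod 2) K => ¬ M ≤ LinearMap.ker κ,
        (Finset.univ.filter fun w : U => w ∈ BK β M D κ).card * 2 ^ (finrank (ZMod 2) K + 1) ≤
          2 ^ finrank (ZMod 2) (UE β M) := by
      intro κ hκ
      rw [Finset.mem_filter] at hκ
      rw [hcard, ← pow_add]
      apply Nat.pow_le_pow_right (by norm_num)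
      have h4 := finrank_BK β M D κ
      have h5 := hM (M ⊓ LinearMap.ker κ) (lt_of_le_of_ne inf_le_left fun h => hκ.2 (by
        rw [← h]
        exact inf_le_right))
      have h6 : ee β M = finrank (ZMod 2) (UE β M) := rfl
      omega
    have h4 : (∑ κ ∈ Finset.univ.filter fun κ : Dual (ZMod 2) K => ¬ M ≤ LinearMap.ker κ,
        (Finset.univ.filter fun w : U => w ∈ BK β M D κ).card) * 2 ^ (finrank (ZMod 2) K + 1) ≤
          2 ^ finrank (ZMod 2) K * 2 ^ finrank (ZMod 2) (UE β M) := by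
      rw [Finset.sum_mul]
      refine (Finset.sum_le_sum h3).trans ?_
      rw [Finset.sum_const, smul_eq_mul]
      apply Nat.mul_le_mul_right
      have h5 : Fintype.card (Dual (ZMod 2) K) = 2 ^ finrank (ZMod 2) K := by
        rw [← Nat.card_eq_fintype_card, Module.natCard_eq_pow_finrank (K := ZMod 2),
          Nat.card_zmod, Subspace.dual_finrank_eq]
      rw [← h5]
      exact Finset.card_le_univ _
    have h5 := Nat.mul_le_mul_right (2 ^ (finrank (ZMod 2) K + 1)) h2
    have h6 := h5.trans h4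
    rw [pow_succ] at h6
    have h7 : 0 < 2 ^ finrank (ZMod 2) K := by positivity
    have h8 : 0 < 2 ^ finrank (ZMod 2) (UE β M) := by positivity
    nlinarith [Nat.mul_pos h7 h8]
  obtain ⟨w, hw, hwκ⟩ := hex
  refine ⟨w, hw, fun m hm => ?_⟩
  by_contra hcon
  have hm2 : m ∉ D.map (β w) := by
    rintro ⟨x, hx, hxm⟩
    exact hcon ⟨x, hx.1, hx.2, hxm⟩
  obtain ⟨κ, hκm, hκ⟩ := Submodule.exists_le_ker_of_notMem hm2
  apply hwκ κ (fun h => hκm (h hm))
  refine Submodule.mem_inf.2 ⟨hw, ?_⟩
  rw [Submodule.mem_comap, Submodule.mem_dualAnnihilator]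
  intro x hx
  exact hκ (Submodule.mem_map_of_mem hx)

end

theorem t_DIST : S_DIST := by
  intro V K _ _ _ _ _ _ U β t hβ ht M hM
  refine ⟨?_, ?_⟩
  · obtain ⟨w, hw, hwM⟩ := claim β ht hM 0 0
    refine ⟨w, le_antisymm ?_ ?_⟩
    · rintro _ ⟨x, rfl⟩
      exact hw x
    · intro m hm
      obtain ⟨d, -, -, hd⟩ := hwM m hm
      exact ⟨d, hd⟩
  · intro u u' α hα
    obtain ⟨hα1, hα2⟩ := Submodule.mem_inf.1 hα
    obtain ⟨w, hw, hwM⟩ := claim β ht hM u (u + u')
    -- the two values
    have key : ∀ v : U, (∀ d : V, β u d = 0 → β (u + u') d = 0 → β v d = 0) →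
        α ∈ M ⊔ LinearMap.range (β v) → ∃ x : V, β (v + w) x = α := by
      intro v hv hαv
      obtain ⟨m, hm, _, ⟨x₀, rfl⟩, hsum⟩ := Submodule.mem_sup.1 hαv
      obtain ⟨d, hd1, hd2, hd3⟩ := hwM (β w x₀) (hw x₀)
      obtain ⟨d', hd1', hd2', hd3'⟩ := hwM m hm
      refine ⟨x₀ - d + d', ?_⟩
      have e1 : β (v + w) (x₀ - d + d') = β v x₀ - β v d + β v d' + (β w x₀ - β w d + β w d') := by
        rw [map_add β, LinearMap.add_apply, map_add, map_add, map_sub, map_sub]
      rw [e1, hv d hd1 hd2, hv d' hd1' hd2', hd3, hd3', ← hsum]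
      abel
    have h1 := key u (fun d h _ => h) hα1
    have h2 := key u' (fun d h1 h2 => by
      rw [map_add, LinearMap.add_apply, h1, zero_add] at h2
      exact h2) hα2
    have h3 : (u + w) + (u + u') = u' + w := by
      have : (u + w) + (u + u') = (u + u) + (u' + w) := by abel
      rw [this, add_self, zero_add]
    obtain ⟨z, hz1, hz2⟩ := hβ.link (u + w) (u + u') α h1 (by rw [h3]; exact h2)
    rw [map_add, LinearMap.add_apply] at hz1 hz2
    have h4 : β u z = β u' z := by
      have h5 : β u z + (β u' z + β u' z) = β u' z := by rw [← add_assoc, hz1, zero_add]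
      rwa [add_self, add_zero] at h5
    rw [← hz2, add_comm]
    refine Submodule.add_mem_sup (hw z) ?_
    exact ⟨⟨z, rfl⟩, ⟨z, h4.symm⟩⟩

end Pool.Agent.Y388.QB
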